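import Mathlib

namespace Pool.Agent.Results.MP_2aafb6_co.Shift

open Finset

/-- `a 0, ..., a n` is admissible for `b, c`. -/
def Adm (b c n : ℕ) (a : ℕ → ℕ) : Prop :=
  a 0 = 0 ∧ (∀ i < n, a i < a (i + 1)) ∧ ∀ i, i + b ≤ n → a (i + b) ≤ a i + c

/-- `a 0, ..., a n` hits `k`. -/
def Hits (k n : ℕ) (a : ℕ → ℕ) : Prop := ∃ i j, i < j ∧ j ≤ n ∧ a j = a i + k

/-- `N(b,c,k)`, with value `⊤` if no `n` works. -/
noncomputable def N (b c k : ℕ) : ℕ∞ :=
  ⨅ (n : ℕ) (_ : 0 < n ∧ ∀ a, Adm b c n a → Hits k n a), (n : ℕ∞)

lemma mono {n : ℕ} {a : ℕ → ℕ} (h : ∀ i < n, a i < a (i + 1)) {i j : ℕ} (hij : i < j)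
    (hj : j ≤ n) : a i < a j := by
  induction j, hij using Nat.le_induction with
  | base => exact h i (by omega)
  | succ j _ ih => exact (ih (by omega)).trans (h j (by omega))

lemma mono' {n : ℕ} {a : ℕ → ℕ} (h : ∀ i < n, a i < a (i + 1)) {i j : ℕ} (hij : i ≤ j)
    (hj : j ≤ n) : a i ≤ a j := by
  rcases hij.eq_or_lt with rfl | h'
  · rfl
  · exact (mono h h' hj).le

lemma inv {n : ℕ} {a : ℕ → ℕ} (h : ∀ i < n, a i < a (i + 1)) {i j : ℕ} (hi : i ≤ n)
    (hij : a i < a j) : i < j := by
  by_contra hc
  exact absurd (mono' h (not_lt.1 hc) hi) (not_le.2 hij)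

lemma gap {n k : ℕ} (hk : 0 < k) {a : ℕ → ℕ} (h : ∀ i < n, a i < a (i + 1)) (hn : ¬ Hits k n a)
    {i : ℕ} (hi : i + k ≤ n) : a i + 2 * k ≤ a (i + k) := by
  by_contra hc
  obtain ⟨x, hx, y, hy, hxy, e⟩ := exists_ne_map_eq_of_card_lt_of_maps_to (s := range (k + 1))
    (t := range k) (by simp) (f := fun x => a (i + x) % k) fun x _ => by simpa using Nat.mod_lt _ hk
  simp only [mem_range] at hx hy
  wlog hlt : x < y generalizing x y
  · exact this y x hxy.symm e.symm hy hx (by omega)
  have h1 := mono h (show i + x < i + y by omega) (by omega)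
  have h2 := mono' h (show i ≤ i + x by omega) (by omega)
  have h3 := mono' h (show i + y ≤ i + k by omega) hi
  obtain ⟨m, hm⟩ := (Nat.modEq_iff_dvd' h1.le).1 e
  have : m = 1 := by
    rcases m with _ | _ | m
    · omega
    · rfl
    · have : k * (m + 1 + 1) = k * m + 2 * k := by ring
      omega
  subst this
  exact hn ⟨i + x, i + y, by omega, by omega, by omega⟩

lemma small {b c k n : ℕ} (hc : c < 2 * b) (hk : 0 < k) {a : ℕ → ℕ} (h : Adm b c n a)
    (hn : ¬ Hits k n a) {i : ℕ} (hi : i + b ≤ n) : a i < k := by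
  induction i with
  | zero => rw [h.1]; exact hk
  | succ j ih =>
    have hj := ih (by omega)
    by_contra hlt
    have hb := h.2.2 0 (by omega)
    have hb' := h.2.2 j (by omega)
    rw [zero_add, h.1] at hb
    have key := card_le_card_of_injOn (s := range (2 * b + 1)) (t := range (c + 1))
      (fun x => if x ≤ b then a x else a (j + (x - b)) - k) (fun x hx => by
        simp only [coe_range, Set.mem_Iio] at hx ⊢
        split_ifs with h1
        · have := mono' h.2.1 h1 (by omega); omega
        · have := mono' h.2.1 (show j + (x - b) ≤ j + b by omega) (by omega); omega) (by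
        have aux : ∀ x y, x ≤ b → ¬ y ≤ b → y < 2 * b + 1 → a x ≠ a (j + (y - b)) - k := by
          intro x y h1 h2 h3 e
          have h4 := mono' h.2.1 (show j + 1 ≤ j + (y - b) by omega) (by omega)
          exact hn ⟨x, j + (y - b), inv h.2.1 (by omega) (by omega), by omega, by omega⟩
        intro x hx y hy e
        simp only [coe_range, Set.mem_Iio] at hx hy
        simp only at e
        split_ifs at e with h1 h2 h2
        · by_contra hne
          rcases lt_or_gt_of_ne hne with h3 | h3
          · have := mono h.2.1 h3 (by omega); omega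
          · have := mono h.2.1 h3 (by omega); omega
        · exact absurd e (aux x y h1 h2 hy)
        · exact absurd e.symm (aux y x h2 h1 hx)
        · have h4 := mono' h.2.1 (show j + 1 ≤ j + (y - b) by omega) (by omega)
          have h5 := mono' h.2.1 (show j + 1 ≤ j + (x - b) by omega) (by omega)
          by_contra hne
          rcases lt_or_gt_of_ne hne with h3 | h3
          · have := mono h.2.1 (show j + (x - b) < j + (y - b) by omega) (by omega); omega
          · have := mono h.2.1 (show j + (y - b) < j + (x - b) by omega) (by omega); omega)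
    simp only [card_range] at key
    omega

lemma count_two {k : ℕ} (p : ℕ → Prop) [DecidablePred p] (hp : ∀ x, p (x + k) ↔ ¬ p x) (y : ℕ) :
    Nat.count p (y + 2 * k) = Nat.count p y + k := by
  induction y with
  | zero =>
    have : ∀ m, Nat.count p m + Nat.count (fun x => p (k + x)) m = m := by
      intro m
      induction m with
      | zero => simp
      | succ m ih =>
        rw [Nat.count_succ, Nat.count_succ]
        have := hp m
        rw [add_comm] at this
        by_cases h : p m <;> simp [h, this] <;> omega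
    rw [zero_add, two_mul, Nat.count_add, this]; simp
  | succ y ih =>
    have : p (y + 2 * k) ↔ p y := by rw [two_mul, ← add_assoc, hp, hp, not_not]
    rw [add_right_comm, Nat.count_succ, Nat.count_succ, ih]
    simp only [this]
    omega

lemma extend {b c k n : ℕ} (hc : c < 2 * b) (hk : 0 < k) {a : ℕ → ℕ} (h : Adm b c n a)
    (hn : ¬ Hits k n a) : ∃ a', Adm (b + k) (c + 2 * k) (n + k) a' ∧ ¬ Hits k (n + k) a' := by
  classical
  let S : ℕ → Prop := fun y => (∃ i, i + b ≤ n ∧ a i = y) ∨ ∀ i, i + b ≤ n → a i < y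
  let p : ℕ → Prop := fun x => S (x % k) ↔ (x / k) % 2 = 0
  have hp : ∀ x, p (x + k) ↔ ¬ p x := by
    intro x
    simp only [p, Nat.add_mod_right, Nat.add_div_right _ hk]
    have : (x / k + 1) % 2 = 0 ↔ ¬ (x / k % 2 = 0) := by omega
    rw [this]
    generalize S (x % k) = A
    generalize (x / k % 2 = 0) = B
    tauto
  have hlow : ∀ x < k, p x ↔ S x := fun x hx => by
    simp [p, Nat.mod_eq_of_lt hx, Nat.div_eq_of_lt hx]
  have hS : ∀ j ≤ n, S (a j) := by
    intro j hj
    by_cases h1 : j + b ≤ n
    · exact Or.inl ⟨j, h1, rfl⟩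
    · exact Or.inr fun i hi => mono h.2.1 (by omega) hj
  have hinf : (Set.ofPred p).Infinite := Set.infinite_of_forall_exists_gt fun x => by
    by_cases h1 : p (x + 1)
    · exact ⟨x + 1, h1, by omega⟩
    · exact ⟨x + 1 + k, (hp _).2 h1, by omega⟩
  refine ⟨Nat.nth p, ⟨Nat.nth_zero_of_zero ((hlow 0 hk).2 (h.1 ▸ hS 0 (by omega))),
    fun i _ => (Nat.nth_lt_nth hinf).2 (by omega), fun i hi => ?_⟩, ?_⟩
  · have hi' : i + b ≤ n := by omega
    have h1 := small hc hk h hn hi'
    have h2 : Nat.count p (a i) ≤ i := by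
      rw [Nat.count_eq_card_filter_range]
      refine le_trans (card_le_card (t := (range i).image a) fun x hx => ?_)
        (card_image_le.trans (by simp))
      obtain ⟨h3, h4⟩ := mem_filter.1 hx
      rw [mem_range] at h3
      rcases (hlow x (by omega)).1 h4 with ⟨j, hj, rfl⟩ | h5
      · exact mem_image_of_mem a (mem_range.2 (inv h.2.1 (by omega) h3))
      · exact absurd (h5 i hi') (by omega)
    have h3 : i + b + 1 ≤ Nat.count p (a i + c + 1) := by
      rw [Nat.count_eq_card_filter_range]
      have hge : ∀ j ≤ n, ¬ p (a j) → k ≤ a j := fun j hj hq =>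
        not_lt.1 fun hlt => hq ((hlow _ hlt).2 (hS j hj))
      refine le_trans (by simp) (card_le_card_of_injOn (s := range (i + b + 1))
        (fun j => if p (a j) then a j else a j - k) (fun j hj => ?_) ?_)
      · simp only [coe_range, Set.mem_Iio] at hj
        have h4 := mono' h.2.1 (show j ≤ i + b by omega) hi'
        have h5 := h.2.2 i hi'
        simp only [coe_filter, mem_range, Set.mem_ofPred_eq]
        split_ifs with hq
        · exact ⟨by omega, hq⟩
        · refine ⟨by omega, not_not.1 fun hq' => hq ?_⟩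
          have := (hp _).2 hq'
          rwa [Nat.sub_add_cancel (hge j (by omega) hq)] at this
      · have inj : ∀ x ≤ n, ∀ y ≤ n, a x = a y → x = y := fun x hx y hy e => by
          by_contra hne
          rcases lt_or_gt_of_ne hne with h3 | h3
          · have := mono h.2.1 h3 hy; omega
          · have := mono h.2.1 h3 hx; omega
        intro x hx y hy e
        simp only [coe_range, Set.mem_Iio] at hx hy
        simp only at e
        split_ifs at e with q1 q2 q2
        · exact inj x (by omega) y (by omega) e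
        · have := hge y (by omega) q2
          exact absurd ⟨x, y, inv h.2.1 (by omega) (by omega), by omega, by omega⟩ hn
        · have := hge x (by omega) q1
          exact absurd ⟨y, x, inv h.2.1 (by omega) (by omega), by omega, by omega⟩ hn
        · have := hge x (by omega) q1
          have := hge y (by omega) q2
          exact inj x (by omega) y (by omega) (by omega)
    have h4 := (Nat.count_le_iff_le_nth hinf).1 h2
    have h5 := Nat.nth_lt_of_lt_count (p := p) (n := a i + c + 1 + 2 * k) (k := i + (b + k))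
      (by rw [count_two p hp]; omega)
    omega
  · rintro ⟨i, j, -, -, e⟩
    exact (hp _).1 (e ▸ Nat.nth_mem_of_infinite hinf j) (Nat.nth_mem_of_infinite hinf i)

theorem result (b c k : ℕ) (_hb : 0 < b) (hk : 0 < k) (_hbc : b ≤ c) (hc : c < 2 * b) :
    N (b + k) (c + 2 * k) k = N b c k + k := by
  apply le_antisymm
  · simp only [N, ENat.iInf_add]
    refine le_iInf₂ fun n hn => iInf₂_le_of_le (n + k) ⟨by omega, fun a ha => ?_⟩ (by simp)
    by_contra hh
    obtain ⟨i, j, h1, h2, h3⟩ := hn.2 a ⟨ha.1, fun i hi => ha.2.1 i (by omega), fun i hi => by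
      have h1 := ha.2.2 i (by omega)
      have h2 := gap hk ha.2.1 hh (show i + b + k ≤ n + k by omega)
      rw [← add_assoc] at h1
      omega⟩
    exact hh ⟨i, j, h1, by omega, h3⟩
  · refine le_iInf₂ fun m hm => ?_
    have hP : ∀ n, m ≤ n + k → ∀ a, Adm b c n a → Hits k n a := by
      intro n hn a ha
      by_contra hh
      obtain ⟨a', h1, h2⟩ := extend hc hk ha hh
      obtain ⟨i, j, h3, h4, h5⟩ := hm.2 a' ⟨h1.1, fun i hi => h1.2.1 i (by omega),
        fun i hi => h1.2.2 i (by omega)⟩
      exact h2 ⟨i, j, h3, by omega, h5⟩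
    have hmk : k < m := by
      by_contra hle
      obtain ⟨i, j, h3, h4, -⟩ := hP 0 (by omega) (fun _ => 0) ⟨rfl, by simp, by simp⟩
      omega
    obtain ⟨n, rfl⟩ : ∃ n, m = n + k := ⟨m - k, by omega⟩
    push_cast
    gcongr
    exact iInf₂_le n ⟨by omega, hP n le_rfl⟩

end Pool.Agent.Results.MP_2aafb6_co.Shift
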